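import Pool.Agent.Helper76.TC2.Goals

/-!
# MP_ccd65d_gt, packet TC2-CC: calculus of chains
-/

set_option autoImplicit false

open Set

namespace Pool.Agent.Helper44.TC2.CC

open Pool.Agent.Helper50.CT (rv)
open Pool.Agent.Helper76.TC2 (Base Chn S_CC)

theorem t : S_CC := by
  intro n d hd
  refine ⟨?_, ?_, ?_, ?_, ?_, ?_⟩
  · rintro η L L' x y z ⟨k₁, z₁, h0, h1, hs, hL⟩ ⟨k₂, z₂, h0', h1', hs', hL'⟩
    set w : ℕ → (Fin n → ℝ) := fun i => if i ≤ k₁ then z₁ i else z₂ (i - k₁) with hw
    have w1 : ∀ i ≤ k₁, w i = z₁ i := fun i hi => if_pos hi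
    have w2 : ∀ j, w (k₁ + j) = z₂ j := by
      intro j
      rcases Nat.eq_zero_or_pos j with rfl | hj
      · rw [Nat.add_zero, w1 k₁ le_rfl, h1, h0']
      · have h : ¬ (k₁ + j ≤ k₁) := by omega
        show (if k₁ + j ≤ k₁ then z₁ (k₁ + j) else z₂ (k₁ + j - k₁)) = z₂ j
        rw [if_neg h, Nat.add_sub_cancel_left]
    have w3 : ∀ j, w (k₁ + j + 1) = z₂ (j + 1) := fun j => w2 (j + 1)
    refine ⟨k₁ + k₂, w, ?_, ?_, ?_, ?_⟩
    · rw [w1 0 (Nat.zero_le _), h0]
    · rw [w2, h1']
    · intro i hi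
      rcases lt_or_ge i k₁ with h | h
      · rw [w1 i h.le, w1 (i + 1) h]
        exact hs i h
      · obtain ⟨j, rfl⟩ := Nat.exists_eq_add_of_le h
        rw [w2, w3]
        exact hs' j (by omega)
    · rw [Finset.sum_range_add]
      refine add_le_add (le_trans (le_of_eq ?_) hL) (le_trans (le_of_eq ?_) hL')
      · refine Finset.sum_congr rfl fun i hi => ?_
        have h := Finset.mem_range.1 hi
        rw [w1 i h.le, w1 (i + 1) h]
      · refine Finset.sum_congr rfl fun j _ => ?_
        rw [w2, w3]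
  · rintro η L x y ⟨k, z, h0, h1, hs, hL⟩
    refine ⟨k, fun i => z (k - i), ?_, ?_, ?_, ?_⟩
    · show z (k - 0) = y
      rw [Nat.sub_zero, h1]
    · show z (k - k) = x
      rw [Nat.sub_self, h0]
    · intro i hi
      show ‖z (k - i) - z (k - (i + 1))‖ ≤ η
      have h : k - i = k - (i + 1) + 1 := by omega
      rw [h, norm_sub_rev]
      exact hs _ (by omega)
    · have h2 : ∑ i ∈ Finset.range k, d (z (k - i)) (z (k - (i + 1))) =
          ∑ i ∈ Finset.range k, (fun j => d (z j) (z (j + 1))) (k - 1 - i) := by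
        refine Finset.sum_congr rfl fun i hi => ?_
        have h := Finset.mem_range.1 hi
        show d (z (k - i)) (z (k - (i + 1))) = d (z (k - 1 - i)) (z (k - 1 - i + 1))
        have e1 : k - i = k - 1 - i + 1 := by omega
        have e2 : k - (i + 1) = k - 1 - i := by omega
        rw [e1, e2, hd.symm]
      show ∑ i ∈ Finset.range k, d (z (k - i)) (z (k - (i + 1))) ≤ L
      rw [h2, Finset.sum_range_reflect (fun j => d (z j) (z (j + 1))) k]
      exact hL
  · rintro η L x y m ⟨k, z, h0, h1, hs, hL⟩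
    refine ⟨k, fun i => rv m + z i, ?_, ?_, ?_, ?_⟩
    · show rv m + z 0 = rv m + x
      rw [h0]
    · show rv m + z k = rv m + y
      rw [h1]
    · intro i hi
      show ‖rv m + z i - (rv m + z (i + 1))‖ ≤ η
      rw [add_sub_add_left_eq_sub]
      exact hs i hi
    · refine le_trans (le_of_eq ?_) hL
      exact Finset.sum_congr rfl fun i _ => hd.periodic m _ _
  · rintro η L x y ⟨k, z, h0, h1, -, hL⟩
    obtain ⟨c, C, -, hcC⟩ := hd.bilip
    have key : ∀ j : ℕ, d (z 0) (z j) ≤ ∑ i ∈ Finset.range j, d (z i) (z (i + 1)) := by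
      intro j
      induction j with
      | zero =>
        have h := (hcC (z 0) (z 0)).2
        rw [sub_self, norm_zero, mul_zero] at h
        simpa using h
      | succ j ih =>
        rw [Finset.sum_range_succ]
        exact (hd.triangle (z 0) (z j) (z (j + 1))).trans (add_le_add ih le_rfl)
    have h := key k
    rw [h0, h1] at h
    exact h.trans hL
  · rintro η η' L L' x y hη hL' ⟨k, z, h0, h1, hs, hL⟩
    exact ⟨k, z, h0, h1, fun i hi => (hs i hi).trans hη, hL.trans hL'⟩
  · intro η x y hxy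
    refine ⟨1, fun i => if i = 0 then x else y, if_pos rfl, if_neg one_ne_zero, ?_, ?_⟩
    · intro i hi
      have h : i = 0 := by omega
      subst h
      simpa using hxy
    · simp

end Pool.Agent.Helper44.TC2.CC
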